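import Pool.Agent.H4.FD.Conj
import Pool.Agent.H4.Loop.Basic

set_option autoImplicit false

/-!
If `Q` has odd order then the inversion `J` of an automorphic loop fixes only `e`.
-/

namespace ALoop

open Equiv

variable {Q : Type*} {G : Subgroup (Perm Q)} {L : Q → Perm Q} {J : Perm Q} {e : Q}

namespace AL

theorem odd_fix [Finite Q] (h : AL G L J e) (hodd : Odd (Nat.card Q)) {x : Q} (hx : J x = x) :
    x = e := by
  classical
  by_contra hxe
  have := Fintype.ofFinite Q
  have hJJ := h.JJ1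
  obtain ⟨z, hz⟩ : ∃ z, z = D L J x * J := ⟨_, rfl⟩
  have hzG : z ∈ G := by
    have h1 := h.D_mul_mem x e
    rw [h.D_e] at h1
    rw [hz]; exact h1
  have hLx : L x x = e := by
    have h1 := h.LJ x
    rwa [hx] at h1
  have hDe : D L J x e = e := by
    unfold D
    simp only [Perm.mul_apply]
    have h1 : (L x)⁻¹ e = x := by rw [Perm.inv_eq_iff_eq, hLx]
    rw [h1, hx, hLx]
  have hze : z e = e := by rw [hz, Perm.mul_apply, h.Je, hDe]
  have hzx : z x = x := by rw [hz, Perm.mul_apply, hx, h.D_self]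
  have hzz : ∀ v, z (z v) = v := by
    intro v
    have h1 := h.D_J x
    rw [hx] at h1
    have h2 : z * z = 1 := by
      calc z * z = D L J x * (J * D L J x * J) := by rw [hz]; group
        _ = 1 := by rw [h1, h.D_sq]
    have h3 := congrArg (fun p : Perm Q => p v) h2
    simpa using h3
  have hzJ : z * J = J * z := h.comJ z hzG hze
  have comL : ∀ y, z y = y → z * L y = L y * z := fun y hy => h.comL hzG hze hy
  have FL : ∀ y v, z y = y → z v = v → z (L y v) = L y v := by
    intro y v hy hv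
    have h1 := congrArg (fun p : Perm Q => p v) (comL y hy)
    simp only [Perm.mul_apply] at h1
    rw [h1, hv]
  have FLi : ∀ y v, z y = y → z v = v → z ((L y)⁻¹ v) = (L y)⁻¹ v := by
    intro y v hy hv
    apply (L y).injective
    have h1 := congrArg (fun p : Perm Q => p ((L y)⁻¹ v)) (comL y hy)
    simp only [Perm.mul_apply] at h1
    rw [← h1, apply_inv', hv]
  have FJ : ∀ v, z v = v → z (J v) = J v := by
    intro v hv
    have h1 := congrArg (fun p : Perm Q => p v) hzJ
    simp only [Perm.mul_apply] at h1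
    rw [h1, hv]
  have DJ : ∀ f, z f = f → D L J x f = J f := by
    intro f hf
    have h1 : D L J x = z * J := by rw [hz, mul_assoc, hJJ, mul_one]
    rw [h1, Perm.mul_apply, FJ f hf]
  -- the relation: `D u` and `D v` agree on the fixed points of `z`
  obtain ⟨R, hR⟩ : ∃ R : Q → Q → Prop, ∀ u v, R u v ↔ ∀ f, z f = f → D L J u f = D L J v f :=
    ⟨fun u v => ∀ f, z f = f → D L J u f = D L J v f, fun _ _ => Iff.rfl⟩
  have Rs : ∀ {u v}, R u v → R v u := by
    intro u v huv
    rw [hR] at huv ⊢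
    exact fun f hf => (huv f hf).symm
  have Rt : ∀ {u v w}, R u v → R v w → R u w := by
    intro u v w huv hvw
    rw [hR] at huv hvw ⊢
    exact fun f hf => (huv f hf).trans (hvw f hf)
  have RL : ∀ {u v y}, z y = y → R u v → R (L y u) (L y v) := by
    intro u v y hy huv
    rw [hR] at huv ⊢
    intro f hf
    rw [← h.D_conj (h.memL y), ← h.D_conj (h.memL y)]
    simp only [Perm.mul_apply]
    rw [huv _ (FLi y f hy hf)]
  have RLi : ∀ {u v y}, z y = y → R u v → R ((L y)⁻¹ u) ((L y)⁻¹ v) := by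
    intro u v y hy huv
    rw [hR] at huv ⊢
    intro f hf
    rw [← h.D_conj (G.inv_mem (h.memL y)), ← h.D_conj (G.inv_mem (h.memL y))]
    simp only [Perm.mul_apply, inv_inv]
    rw [huv _ (FL y f hy hf)]
  have Rxe : R x e := by
    rw [hR]
    intro f hf
    rw [DJ f hf, h.D_e]
  -- the class of `e`
  have AJ : ∀ a, z a = a → R a e → J a = a := by
    intro a ha hae
    rw [hR] at hae
    have h1 := hae a ha
    rw [h.D_self, h.D_e] at h1
    exact h1.symm
  have Ainv : ∀ a, z a = a → R a e → R ((L a)⁻¹ x) e := by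
    intro a ha hae
    have h1 : R ((L a)⁻¹ x) ((L a)⁻¹ a) := RLi ha (Rt Rxe (Rs hae))
    have h2 : (L a)⁻¹ a = e := by rw [Perm.inv_eq_iff_eq, h.Le]
    rwa [h2] at h1
  have Acomm : ∀ a w, z a = a → z w = w → R a e → R w e → L a w = L w a := by
    intro a w ha hw hae hwe
    have h1 : R (L a w) e := by
      have h2 : R (L a w) (L a e) := RL ha hwe
      rw [h.Le] at h2
      exact Rt h2 hae
    have h2 := AJ _ (FL a w ha hw) h1
    have h3 := h.aaip a w
    rw [h2, AJ a ha hae, AJ w hw hwe] at h3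
    exact h3
  -- representatives
  obtain ⟨rho, hrho⟩ : ∃ rho : (Q → Q) → Q, ∀ v, z v = v →
      z (rho (fun f => if z f = f then D L J v f else f)) =
        rho (fun f => if z f = f then D L J v f else f) ∧
      R (rho (fun f => if z f = f then D L J v f else f)) v := by
    have h1 : ∀ c : Q → Q, ∃ u, (∃ v, z v = v ∧ (fun f => if z f = f then D L J v f else f) = c) →
        z u = u ∧ (fun f => if z f = f then D L J u f else f) = c := by
      intro c
      by_cases hc : ∃ v, z v = v ∧ (fun f => if z f = f then D L J v f else f) = c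
      · obtain ⟨v, hv, hvc⟩ := hc
        exact ⟨v, fun _ => ⟨hv, hvc⟩⟩
      · exact ⟨e, fun hc' => absurd hc' hc⟩
    choose rho hrho using h1
    refine ⟨rho, fun v hv => ?_⟩
    obtain ⟨h2, h3⟩ := hrho (fun f => if z f = f then D L J v f else f) ⟨v, hv, rfl⟩
    refine ⟨h2, ?_⟩
    rw [hR]
    intro f hf
    have h4 := congrFun h3 f
    simp only [hf, if_true] at h4
    exact h4
  obtain ⟨rep, hrep⟩ : ∃ rep : Q → Q, rep = fun v =>
      rho (fun f => if z f = f then D L J v f else f) := ⟨_, rfl⟩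
  have rep1 : ∀ v, z v = v → z (rep v) = rep v := by
    intro v hv
    rw [hrep]; exact (hrho v hv).1
  have rep2 : ∀ v, z v = v → R (rep v) v := by
    intro v hv
    rw [hrep]; exact (hrho v hv).2
  have rep3 : ∀ u v, R u v → rep u = rep v := by
    intro u v huv
    rw [hR] at huv
    rw [hrep]
    change rho (fun f => if z f = f then D L J u f else f) =
      rho (fun f => if z f = f then D L J v f else f)
    congr 1
    funext f
    by_cases hf : z f = f
    · rw [if_pos hf, if_pos hf, huv f hf]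
    · rw [if_neg hf, if_neg hf]
  -- the involution
  obtain ⟨g, hg⟩ : ∃ g : Q → Q, g = fun v =>
      if z v = v then L (rep v) ((L ((L (rep v))⁻¹ v))⁻¹ x) else z v := ⟨_, rfl⟩
  have key : ∀ v, z v = v → z (L (rep v) ((L ((L (rep v))⁻¹ v))⁻¹ x)) =
      L (rep v) ((L ((L (rep v))⁻¹ v))⁻¹ x) ∧
      rep (L (rep v) ((L ((L (rep v))⁻¹ v))⁻¹ x)) = rep v ∧
      L (rep v) ((L ((L (rep v))⁻¹ (L (rep v) ((L ((L (rep v))⁻¹ v))⁻¹ x))))⁻¹ x) = v ∧
      L (rep v) ((L ((L (rep v))⁻¹ v))⁻¹ x) ≠ v := by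
    intro v hv
    obtain ⟨u, hu⟩ : ∃ u, u = rep v := ⟨_, rfl⟩
    have hu1 : z u = u := by rw [hu]; exact rep1 v hv
    have hu2 : R u v := by rw [hu]; exact rep2 v hv
    obtain ⟨a, ha⟩ : ∃ a, a = (L u)⁻¹ v := ⟨_, rfl⟩
    have ha1 : z a = a := by rw [ha]; exact FLi u v hu1 hv
    have ha2 : R a e := by
      have h1 : R ((L u)⁻¹ v) ((L u)⁻¹ u) := RLi hu1 (Rs hu2)
      have h2 : (L u)⁻¹ u = e := by rw [Perm.inv_eq_iff_eq, h.Le]
      rw [h2, ← ha] at h1
      exact h1
    obtain ⟨w, hw⟩ : ∃ w, w = (L a)⁻¹ x := ⟨_, rfl⟩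
    have hw1 : z w = w := by rw [hw]; exact FLi a x ha1 hzx
    have hw2 : R w e := by rw [hw]; exact Ainv a ha1 ha2
    have haw : L a w = x := by rw [hw, apply_inv']
    have hwa : (L w)⁻¹ x = a := by
      rw [Perm.inv_eq_iff_eq, ← Acomm a w ha1 hw1 ha2 hw2, haw]
    rw [← hu, ← ha, ← hw]
    have h3 : (L u)⁻¹ (L u w) = w := inv_apply' _ _
    rw [h3, hwa]
    have h4 : L u a = v := by rw [ha, apply_inv']
    refine ⟨FL u w hu1 hw1, ?_, h4, ?_⟩
    · have h5 : R (L u w) (L u e) := RL hu1 hw2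
      rw [h.Le] at h5
      rw [rep3 _ _ (Rt h5 hu2), ← hu]
    · intro h5
      rw [← h4] at h5
      have h6 := (L u).injective h5
      rw [h6] at haw
      have h7 := h.LJ a
      rw [AJ a ha1 ha2, haw] at h7
      exact hxe h7
  have hgg : ∀ v, g (g v) = v := by
    intro v
    by_cases hv : z v = v
    · obtain ⟨k1, k2, k3, -⟩ := key v hv
      have h1 : g v = L (rep v) ((L ((L (rep v))⁻¹ v))⁻¹ x) := by
        rw [hg]; exact if_pos hv
      rw [h1]
      have h2 : g (L (rep v) ((L ((L (rep v))⁻¹ v))⁻¹ x)) =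
          L (rep (L (rep v) ((L ((L (rep v))⁻¹ v))⁻¹ x)))
            ((L ((L (rep (L (rep v) ((L ((L (rep v))⁻¹ v))⁻¹ x))))⁻¹
              (L (rep v) ((L ((L (rep v))⁻¹ v))⁻¹ x))))⁻¹ x) := by
        rw [hg]; exact if_pos k1
      rw [h2, k2, k3]
    · have h1 : g v = z v := by rw [hg]; exact if_neg hv
      have h2 : ¬ z (z v) = z v := fun h3 => hv (z.injective h3)
      have h3 : g (z v) = z (z v) := by rw [hg]; exact if_neg h2
      rw [h1, h3, hzz]
  have hgne : ∀ v, g v ≠ v := by
    intro v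
    by_cases hv : z v = v
    · have h1 : g v = L (rep v) ((L ((L (rep v))⁻¹ v))⁻¹ x) := by
        rw [hg]; exact if_pos hv
      rw [h1]; exact (key v hv).2.2.2
    · have h1 : g v = z v := by rw [hg]; exact if_neg hv
      rw [h1]; exact hv
  have hsum : ∑ _v : Q, (1 : ZMod 2) = 0 := by
    refine Finset.sum_involution (fun v _ => g v) ?_ ?_ ?_ ?_
    · intro a _
      decide
    · intro a _ _
      exact hgne a
    · intro a _
      exact Finset.mem_univ _
    · intro a _
      exact hgg a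
  rw [Finset.sum_const, Finset.card_univ, nsmul_eq_mul, mul_one, ZMod.natCast_eq_zero_iff,
    ← Nat.card_eq_fintype_card] at hsum
  exact (Nat.not_even_iff_odd.2 hodd) (even_iff_two_dvd.2 hsum)

end AL

end ALoop
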